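import Pool.Agent.Lib.MP_36a065_ag.Example

namespace Pool.Agent.Results.MP_36a065_ag.Evolution

universe u

/-- Over every field `K` of characteristic zero there is a reduced local `K`-algebra `R`,
essentially of finite type, with a nontrivial evolution `T → R`, where `T` is also local and
essentially of finite type over `K`. -/
theorem result (K : Type u) [Field K] [CharZero K] :
    ∃ (R T : Type u) (_ : CommRing R) (_ : CommRing T) (_ : Algebra K R) (_ : Algebra K T)
      (_ : Algebra T R) (_ : IsScalarTower K T R),
      IsLocalRing R ∧ IsReduced R ∧ Algebra.EssFiniteType K R ∧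
      IsLocalRing T ∧ Algebra.EssFiniteType K T ∧
      Function.Surjective (algebraMap T R) ∧ ¬ Function.Injective (algebraMap T R) ∧
      Function.Bijective (KaehlerDifferential.mapBaseChange K T R) :=
  open Pool.Agent.Lib.MP_36a065_ag in
  exists_evolution (I0 K) (I0_radical K) (I0_le K) (F K) (F_mem K) (dF_mem K) (phi K)
    (phi_kills K) (phi_F_ne K)

end Pool.Agent.Results.MP_36a065_ag.Evolution
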